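import Pool.Agent.H9.Ghost7

namespace Pool.Agent.Results.MP_ddf116_an.Counter
open Filter Topology

/-- `V` locates `T`: every pair over `V` monotonically related to the restriction of `T` to `V`
has its first component in the domain of `T`. -/
def Locates {X : Type} [NormedAddCommGroup X] [NormedSpace ℝ X] (V : Set X)
    (T : Set (X × (X →L[ℝ] ℝ))) : Prop :=
  ∀ x ∈ V, ∀ f : X →L[ℝ] ℝ, (∀ p ∈ T, p.1 ∈ V → 0 ≤ (f - p.2) (x - p.1)) → ∃ g, (x, g) ∈ T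

theorem result : ∃ (X : Type) (_ : NormedAddCommGroup X) (_ : NormedSpace ℝ X)
    (_ : CompleteSpace X) (T : Set (X × (X →L[ℝ] ℝ))) (V : Set X),
    (∀ p ∈ T, ∀ q ∈ T, 0 ≤ (p.2 - q.2) (p.1 - q.1)) ∧
    (∀ (x : X) (f : X →L[ℝ] ℝ), (∀ p ∈ T, 0 ≤ (f - p.2) (x - p.1)) → (x, f) ∈ T) ∧
    IsOpen V ∧ Convex ℝ V ∧ (∃ p ∈ T, p.1 ∈ V) ∧
    Locates (closure V) T ∧ ¬ Locates V T := by
  obtain ⟨A, l, h1, h2, -, h3, h4, x, f, h5, h6, h7⟩ :=
    H9.Ghost.cvx (default : HilbertBasis ℕ ℝ H9.Ghost.L2).orthonormal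
  refine ⟨_, _, _, inferInstance, A, l ⁻¹' Set.Ioi 0, h1, h2, isOpen_Ioi.preimage l.continuous,
    (convex_Ioi 0).linear_preimage l.1, h4, fun y _ g hg => ⟨g, h2 y g fun p hp => hg p hp ?_⟩,
    fun h => (h x h5 f h7).elim fun g hg => h6 ⟨(x, g), hg, rfl⟩⟩
  have := (tendsto_one_div_add_atTop_nhds_zero_nat (𝕜 := ℝ).smul_const x).const_add p.1
  rw [zero_smul, add_zero] at this
  refine mem_closure_of_tendsto this (.of_forall fun n => show 0 < l _ from ?_)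
  rw [map_add, map_smul]
  exact add_pos_of_nonneg_of_pos (h3 p hp) (mul_pos Nat.one_div_pos_of_nat h5)

end Pool.Agent.Results.MP_ddf116_an.Counter
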